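import Pool.Agent.N102.FL.Stm

set_option autoImplicit false

universe u

open Pool.Agent.N102.FL

namespace Pool.Agent.N954.FL

theorem factV (p : ℕ) [Fact p.Prime] (k κ : Type u) [Field k] [CharP k p] [PerfectRing k p]
    [Field κ] [Algebra k κ] (T : Type) [Fintype T] (e : T → ℕ) (R : Submodule k (Option T → k))
    (Ix : Type) (fx : Ix → ℕ) (cx : Ix → Option T → k) (l : T → ℤ) (z : T → κ)
    (hS : Spanning e R fx cx) (hz : ∀ t, z t ≠ 0)
    (hv : ∀ i, vL p e (fx i) (cx i) l z = 0) (W : Set (Option T)) (r : Option T → k) (hr : r ∈ R)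
    (hW : ∀ o, r o ≠ 0 → o ∈ W) (o₁ : Option T) (h1 : r o₁ ≠ 0)
    (hm : ∀ o ∈ W, o ≠ o₁ → wt p e l o₁ < wt p e l o) : False := by
  classical
  have hsp := hS.2 0 (Or.inl rfl) W r hr (fun t _ => Nat.zero_le _) hW
  have hex : ∃ i, fx i = 0 ∧ (∀ o, cx i o ≠ 0 → o ∈ W) ∧ cx i o₁ ≠ 0 := by
    by_contra hno
    push Not at hno
    apply h1
    have hle : Submodule.span k {c' | ∃ i, fx i = 0 ∧ cx i = c' ∧ ∀ o, c' o ≠ 0 → o ∈ W} ≤
        LinearMap.ker (LinearMap.proj o₁ : (Option T → k) →ₗ[k] k) := by
      rw [Submodule.span_le]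
      rintro c' ⟨i, hi, rfl, hi'⟩
      simpa using hno i hi hi'
    simpa using hle hsp
  obtain ⟨i, hi, hiW, hi1⟩ := hex
  have hmin : ∀ o, IsMin p e l (cx i) o ↔ o = o₁ := by
    intro o
    constructor
    · rintro ⟨ho, ho'⟩
      by_contra hne
      exact absurd (ho' o₁ hi1) (not_le.mpr (hm o (hiW o ho) hne))
    · rintro rfl
      refine ⟨hi1, fun o' ho' => ?_⟩
      by_cases heq : o' = o
      · rw [heq]
      · exact (hm o' (hiW o' ho') heq).le
  have h2 := hv i
  unfold vL at h2
  simp only [hmin, Finset.sum_ite_eq', Finset.mem_univ, if_true] at h2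
  rcases mul_eq_zero.mp h2 with h3 | h3
  · rw [map_eq_zero] at h3
    unfold rt at h3
    rw [EmbeddingLike.map_eq_zero_iff] at h3
    exact hi1 h3
  · unfold mv at h3
    cases o₁ with
    | none => exact one_ne_zero h3
    | some t => exact hz t (eq_zero_of_pow_eq_zero h3)

theorem t_lift : S_LIFT.{u} := by
  classical
  intro p _ k κ _ _ _ _ _ T _ e R Ix fx cx l z hSat hS hz hv c hc o ho hmin
  have V := factV p k κ T e R Ix fx cx l z hS hz hv
  cases o with
  | none =>
    exfalso
    refine V {o' | c o' ≠ 0} c hc (fun o ho => ho) none ho ?_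
    intro o' ho' hne
    rcases hmin o' ho' with h | ⟨_, h⟩
    · exact h
    · exfalso
      cases o' with
      | none => exact hne rfl
      | some t' =>
        simp only [lev, top_le_iff] at h
        exact absurd h (ENat.natCast_ne_top _)
  | some t =>
    refine ⟨t, rfl, ?_⟩
    obtain ⟨a, ha, haR⟩ := hSat (e t) c hc
    have h3 : ∀ o', a o' ≠ 0 → wt p e l (some t) < wt p e l o' := by
      intro o' ho'
      by_contra hlt
      rw [not_lt] at hlt
      obtain ⟨_, r, hr, hr1, hr2⟩ := ha o' ho'
      refine V {o'' | r o'' ≠ 0} r hr (fun o ho => ho) o' hr1 ?_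
      intro o'' ho'' hne
      rcases hr2 o'' ho'' with h | ⟨t'', rfl, ht1, ht2⟩
      · exact absurd h hne
      · rcases hmin _ ht2 with h | ⟨_, h⟩
        · exact lt_of_le_of_lt hlt h
        · exfalso
          simp only [lev, Nat.cast_le] at h
          omega
    have hlow : ∀ o', (∃ t', o' = some t' ∧ e t' < e t ∧ low e (e t) c o' = c o') ∨
        (low e (e t) c o' = 0 ∧ lev e (some t) ≤ lev e o') := by
      intro o'
      cases o' with
      | none => right; exact ⟨rfl, le_top⟩
      | some t' =>
        by_cases h : e t' < e t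
        · left; exact ⟨t', rfl, h, by simp [low, h]⟩
        · right
          refine ⟨by simp [low, h], ?_⟩
          simp only [lev, Nat.cast_le]
          omega
    refine ⟨c - (fun o => low e (e t) c o - a o), R.sub_mem hc haR, ?_, ?_⟩
    · intro o' ho'
      simp only [Pi.sub_apply] at ho'
      rcases hlow o' with ⟨t', rfl, h1, h2⟩ | ⟨h1, h2⟩
      · exfalso
        have h4 : a (some t') = 0 := by
          by_contra h5
          exact absurd ((ha _ h5).1 t' rfl) (not_le.mpr h1)
        rw [h2, h4] at ho'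
        simp at ho'
      · refine ⟨?_, h2⟩
        by_cases h5 : a o' = 0
        · have h6 : c o' ≠ 0 := by
            rw [h1, h5] at ho'
            simpa using ho'
          rcases hmin o' h6 with h | ⟨h, _⟩
          · exact h.le
          · exact h.le
        · exact (h3 o' h5).le
    · intro o' hw
      simp only [Pi.sub_apply]
      have h5 : a o' = 0 := by
        by_contra h6
        exact absurd (h3 o' h6) (by rw [hw]; exact lt_irrefl _)
      rcases hlow o' with ⟨t', rfl, h1, h2⟩ | ⟨h1, h2⟩
      · have h6 : c (some t') = 0 := by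
          by_contra h7
          rcases hmin _ h7 with h | ⟨_, h⟩
          · rw [hw] at h; exact lt_irrefl _ h
          · simp only [lev, Nat.cast_le] at h
            omega
        rw [h2, h5, h6]; simp
      · rw [h1, h5]; simp

end Pool.Agent.N954.FL
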